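import Mathlib

/-!
# Tree potentials and the gluing lemma for tree-like spaces
-/

set_option autoImplicit false

namespace H12NW

open SimpleGraph Filter Topology

section Tree

variable {V : Type*} {G : Type*} [AddCommGroup G]

/-- sum of an edge function along a walk -/
def walkSum {T : SimpleGraph V} (c : V → V → G) : {u v : V} → T.Walk u v → G
  | _, _, .nil => 0
  | u, _, .cons (v := v) _ p => c u v + walkSum c p

theorem walkSum_append {T : SimpleGraph V} (c : V → V → G) {u v w : V} (p : T.Walk u v)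
    (q : T.Walk v w) : walkSum c (p.append q) = walkSum c p + walkSum c q := by
  induction p with
  | nil => simp [walkSum]
  | cons h p ih =>
    rw [Walk.cons_append, walkSum, walkSum, ih, add_assoc]

theorem exists_potential {T : SimpleGraph V} (hT : T.IsTree) (c : V → V → G)
    (hc : ∀ u v, T.Adj u v → c v u = - c u v) :
    ∃ m : V → G, ∀ u v, T.Adj u v → m v - m u = c u v := by
  classical
  obtain ⟨r⟩ := hT.connected.nonempty
  have hex : ∀ v, ∃ p : T.Walk r v, p.IsPath := fun v => by
    obtain ⟨p⟩ := hT.connected.preconnected r v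
    exact ⟨p.bypass, p.bypass_isPath⟩
  choose P hP using hex
  have huniq : ∀ {u v : V} (p q : T.Walk u v), p.IsPath → q.IsPath → p = q := by
    intro u v p q hp hq
    have := hT.IsAcyclic.path_unique ⟨p, hp⟩ ⟨q, hq⟩
    exact congrArg Subtype.val this
  refine ⟨fun v => walkSum c (P v), ?_⟩
  intro u v huv
  show walkSum c (P v) - walkSum c (P u) = c u v
  by_cases hv : v ∈ (P u).support
  · have h1 : (P u).takeUntil v hv = P v :=
      huniq _ _ ((hP u).takeUntil hv) (hP v)
    have h2 : (P u).dropUntil v hv = Walk.cons huv.symm Walk.nil := by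
      apply huniq _ _ ((hP u).dropUntil hv)
      simp [huv.ne']
    have h3 := (P u).take_spec hv
    rw [h1, h2] at h3
    have h4 : walkSum c (P u) = walkSum c (P v) + c v u := by
      conv_lhs => rw [← h3]
      rw [walkSum_append]
      simp [walkSum]
    rw [h4, hc u v huv]
    abel
  · have h1 : (P u).append (Walk.cons huv Walk.nil) = P v := by
      apply huniq _ _ _ (hP v)
      rw [← Walk.concat_eq_append]
      exact (hP u).concat hv huv
    have h4 : walkSum c (P v) = walkSum c (P u) + c u v := by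
      rw [← h1, walkSum_append]
      simp [walkSum]
    rw [h4]
    abel

end Tree

/-- tree-like metric spaces, exactly as in the frozen statement -/
def TreeLike (Y : Type*) [MetricSpace Y] : Prop :=
  ∀ ε : ℝ, 0 < ε → ∃ (n : ℕ) (V : Fin n → Set Y),
          (∀ i, IsOpen (V i)) ∧ (∀ i, (V i).Nonempty) ∧
          (∀ i, Metric.diam (V i) < ε) ∧
          (⋃ i, V i) = Set.univ ∧
          (∀ i j k, i ≠ j → j ≠ k → i ≠ k → V i ∩ V j ∩ V k = ∅) ∧
          (SimpleGraph.fromRel (fun i j : Fin n => (V i ∩ V j).Nonempty)).IsTree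

/-- gluing lemma: local solutions of a coboundary problem over a tree-like space glue -/
theorem glue {Y : Type*} [MetricSpace Y] [CompactSpace Y] (hY : TreeLike Y)
    {W : Type*} [TopologicalSpace W] [CompactSpace W]
    {G : Type*} [AddCommGroup G] [TopologicalSpace G] [DiscreteTopology G]
    (p : W → Y) (hp : Continuous p) (β : W → W → G)
    (hloc : ∀ y, ∃ U : Set Y, IsOpen U ∧ y ∈ U ∧ ∃ h : W → G, ContinuousOn h (p ⁻¹' U) ∧
      ∀ a b, p a ∈ U → p a = p b → h a - h b = β a b) :
    ∃ h : W → G, Continuous h ∧ ∀ a b, p a = p b → h a - h b = β a b := by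
  classical
  choose U hUo hyU h hcont hβ using hloc
  obtain ⟨t, ht⟩ := isCompact_univ.elim_finite_subcover U hUo
    (fun y _ => Set.mem_iUnion.2 ⟨y, hyU y⟩)
  obtain ⟨δ, hδ, hL⟩ := lebesgue_number_lemma_of_metric (s := (Set.univ : Set Y))
    (c := fun i : t => U i) isCompact_univ (fun i => hUo i) (by
      intro y hy
      have := ht hy
      simp only [Set.mem_iUnion] at this ⊢
      obtain ⟨i, hi, hyi⟩ := this
      exact ⟨⟨i, hi⟩, hyi⟩)
  -- the compact sets
  let K : t → Set Y := fun i => {z | Metric.ball z (δ / 2) ⊆ U i}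
  have hKU : ∀ i, K i ⊆ U i := fun i z hz => hz (Metric.mem_ball_self (by linarith))
  have hKc : ∀ i, IsClosed (K i) := by
    intro i
    have : K i = ⋂ u ∈ (U i)ᶜ, {z | δ / 2 ≤ dist u z} := by
      ext z
      simp only [K, Set.mem_setOf_eq, Set.mem_iInter, Set.mem_compl_iff]
      constructor
      · intro hz u hu
        by_contra hlt
        exact hu (hz (by rw [Metric.mem_ball]; linarith))
      · intro hz u hu
        by_contra hn
        have := hz u hn
        rw [Metric.mem_ball] at hu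
        linarith
    rw [this]
    exact isClosed_biInter fun u _ => isClosed_le continuous_const (by fun_prop)
  -- the constants
  have hpair : ∀ ik : t × t, ∃ ε : ℝ, 0 < ε ∧ ∀ a b, p a ∈ K ik.1 → p a ∈ K ik.2 →
      p b ∈ K ik.1 → p b ∈ K ik.2 → dist (p a) (p b) < ε →
      h ik.1 a - h ik.2 a = h ik.1 b - h ik.2 b := by
    rintro ⟨i, k⟩
    let A : Set W := p ⁻¹' (K i ∩ K k)
    have hA : IsClosed A := ((hKc i).inter (hKc k)).preimage hp
    let g : W → G := fun a => h i a - h k a
    have hg : ContinuousOn g A := by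
      have hi : ContinuousOn (h i) A := (hcont i).mono fun a ha => hKU i ha.1
      have hk : ContinuousOn (h k) A := (hcont k).mono fun a ha => hKU k ha.2
      exact (continuous_of_discreteTopology (f := fun r : G × G => r.1 - r.2)).comp_continuousOn
        (hi.prodMk hk)
    let Bad : Set (W × W) := (A ×ˢ A) ∩ (fun q : W × W => (g q.1, g q.2)) ⁻¹' {r | r.1 ≠ r.2}
    have hBad : IsClosed Bad := by
      refine ContinuousOn.preimage_isClosed_of_isClosed ?_ (hA.prod hA) (isClosed_discrete _)
      exact (hg.comp continuousOn_fst fun q hq => hq.1).prodMk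
        (hg.comp continuousOn_snd fun q hq => hq.2)
    by_cases hne : Bad.Nonempty
    · obtain ⟨q, hq, hmin⟩ := hBad.isCompact.exists_isMinOn hne
        (f := fun q : W × W => dist (p q.1) (p q.2)) (by fun_prop)
      refine ⟨dist (p q.1) (p q.2), ?_, ?_⟩
      · rw [dist_pos]
        intro heq
        have h1 := hβ i q.1 q.2 (hKU i hq.1.1.1) heq
        have h2 := hβ k q.1 q.2 (hKU k hq.1.1.2) heq
        apply hq.2
        show h i q.1 - h k q.1 = h i q.2 - h k q.2
        have h3 : h i q.1 - h i q.2 = h k q.1 - h k q.2 := h1.trans h2.symm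
        rw [sub_eq_sub_iff_add_eq_add] at h3 ⊢
        rw [h3]; abel
      · intro a b ha1 ha2 hb1 hb2 hd
        by_contra hcon
        have : (a, b) ∈ Bad := ⟨⟨⟨ha1, ha2⟩, ⟨hb1, hb2⟩⟩, hcon⟩
        have := hmin this
        simp only [Set.mem_setOf_eq] at this
        linarith
    · refine ⟨1, one_pos, ?_⟩
      intro a b ha1 ha2 hb1 hb2 _
      by_contra hcon
      exact hne ⟨(a, b), ⟨⟨⟨ha1, ha2⟩, ⟨hb1, hb2⟩⟩, hcon⟩⟩
  choose e he0 he using hpair
  obtain ⟨ε, hε, hε0, hεδ⟩ : ∃ ε : ℝ, (∀ ik : t × t, ε < e ik) ∧ 0 < ε ∧ ε < δ / 2 := by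
    have h1 : ∀ᶠ ε in 𝓝[>] (0 : ℝ), ∀ ik : t × t, ε < e ik := by
      rw [eventually_all]
      intro ik
      filter_upwards [Ioo_mem_nhdsGT (he0 ik)] with ε hε using hε.2
    have h2 : ∀ᶠ ε in 𝓝[>] (0 : ℝ), 0 < ε ∧ ε < δ / 2 := by
      filter_upwards [Ioo_mem_nhdsGT (show (0 : ℝ) < δ / 2 by linarith)] with ε hε
        using ⟨hε.1, hε.2⟩
    obtain ⟨ε, h3, h4⟩ := (h1.and h2).exists
    exact ⟨ε, h3, h4⟩
  obtain ⟨n, V, hVo, hVne, hVd, hVc, -, hT⟩ := hY ε hε0
  choose z hz using hVne
  have hi : ∀ v : Fin n, ∃ i : t, Metric.ball (z v) δ ⊆ U i := fun v => hL (z v) (Set.mem_univ _)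
  choose i hi using hi
  have hdist : ∀ v, ∀ x ∈ V v, ∀ y ∈ V v, dist x y < ε := by
    intro v x hx y hy
    have hb : Bornology.IsBounded (V v) := Metric.isBounded_of_compactSpace
    exact lt_of_le_of_lt (Metric.dist_le_diam_of_mem hb hx hy) (hVd v)
  have hVK : ∀ v, V v ⊆ K (i v) := by
    intro v x hx u hu
    apply hi v
    have := hdist v x hx (z v) (hz v)
    rw [Metric.mem_ball] at hu ⊢
    have := dist_triangle u x (z v)
    linarith
  have hconst : ∀ v w a b, p a ∈ V v → p a ∈ V w → p b ∈ V v → p b ∈ V w →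
      h (i v) a - h (i w) a = h (i v) b - h (i w) b := by
    intro v w a b h1 h2 h3 h4
    exact he (i v, i w) a b (hVK v h1) (hVK w h2) (hVK v h3) (hVK w h4)
      (lt_trans (hdist v _ h1 _ h3) (hε _))
  let c : Fin n → Fin n → G := fun v w =>
    if hex : ∃ a, p a ∈ V v ∧ p a ∈ V w then h (i v) hex.choose - h (i w) hex.choose else 0
  have hcv : ∀ v w a, p a ∈ V v → p a ∈ V w → c v w = h (i v) a - h (i w) a := by
    intro v w a h1 h2
    have hex : ∃ a, p a ∈ V v ∧ p a ∈ V w := ⟨a, h1, h2⟩
    simp only [c]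
    rw [dif_pos hex]
    exact hconst v w _ a hex.choose_spec.1 hex.choose_spec.2 h1 h2
  have hc : ∀ v w, c w v = - c v w := by
    intro v w
    by_cases hex : ∃ a, p a ∈ V v ∧ p a ∈ V w
    · obtain ⟨a, h1, h2⟩ := hex
      rw [hcv v w a h1 h2, hcv w v a h2 h1]; abel
    · have hex' : ¬ ∃ a, p a ∈ V w ∧ p a ∈ V v := fun ⟨a, h1, h2⟩ => hex ⟨a, h2, h1⟩
      simp only [c]
      rw [dif_neg hex, dif_neg hex', neg_zero]
  obtain ⟨m, hm⟩ := exists_potential hT c (fun v w _ => hc v w)
  have hkey : ∀ v w a, p a ∈ V v → p a ∈ V w → h (i v) a + m v = h (i w) a + m w := by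
    intro v w a h1 h2
    by_cases hvw : v = w
    · rw [hvw]
    · have hadj : (SimpleGraph.fromRel (fun i j : Fin n => (V i ∩ V j).Nonempty)).Adj v w := by
        rw [SimpleGraph.fromRel_adj]
        exact ⟨hvw, Or.inl ⟨p a, h1, h2⟩⟩
      have h3 := hm v w hadj
      rw [hcv v w a h1 h2, sub_eq_sub_iff_add_eq_add] at h3
      rw [add_comm _ (m w), h3]
  have hcov : ∀ a, ∃ v, p a ∈ V v := by
    intro a
    have : p a ∈ ⋃ v, V v := by rw [hVc]; trivial
    exact Set.mem_iUnion.1 this
  choose v hv using hcov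
  have hH : ∀ w a, p a ∈ V w → h (i (v a)) a + m (v a) = h (i w) a + m w :=
    fun w a ha => hkey _ _ a (hv a) ha
  refine ⟨fun a => h (i (v a)) a + m (v a), ?_, ?_⟩
  · rw [continuous_iff_continuousAt]
    intro a
    have hopen : p ⁻¹' (V (v a)) ∈ 𝓝 a := ((hVo (v a)).preimage hp).mem_nhds (hv a)
    have h1 : ContinuousAt (h (i (v a))) a := by
      refine (hcont (i (v a))).continuousAt ?_
      filter_upwards [hopen] with b hb
      exact hKU _ (hVK _ hb)
    have h2 : ContinuousAt (fun b => h (i (v a)) b + m (v a)) a :=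
      (continuous_of_discreteTopology (f := fun r : G => r + m (v a))).continuousAt.comp h1
    refine h2.congr ?_
    filter_upwards [hopen] with b hb
    exact (hH (v a) b hb).symm
  · intro a b hab
    show (h (i (v a)) a + m (v a)) - (h (i (v b)) b + m (v b)) = β a b
    have hb : p b ∈ V (v a) := hab ▸ hv a
    rw [hH (v a) b hb]
    have := hβ (i (v a)) a b (hKU _ (hVK _ (hv a))) hab
    rw [← this]; abel

end H12NW
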