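import Pool.Agent.H12.NW.Glue

/-!
# No tree-like continuum is an exactly 2-to-1 image of a continuum
-/

set_option autoImplicit false

namespace H12NW

open Filter Topology Set

/-! ### general topology -/

theorem continuousOn_of_locConst {α G : Type*} [TopologicalSpace α] [TopologicalSpace G]
    {S : Set α} {h : α → G}
    (H : ∀ w ∈ S, ∃ O, IsOpen O ∧ w ∈ O ∧ ∀ w' ∈ O, w' ∈ S → h w' = h w) :
    ContinuousOn h S := by
  intro w hw
  obtain ⟨O, hO, hwO, hh⟩ := H w hw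
  refine (continuousWithinAt_const (b := h w)).congr_of_eventuallyEq ?_ rfl
  filter_upwards [mem_nhdsWithin_of_mem_nhds (hO.mem_nhds hwO), self_mem_nhdsWithin] with w' h1 h2
  exact hh w' h1 h2

/-- the tube lemma for maps of compact spaces -/
theorem tube {X Y : Type*} [TopologicalSpace X] [CompactSpace X] [TopologicalSpace Y] [T2Space Y]
    {p : X → Y} (hp : Continuous p) {O : Set X} (hO : IsOpen O) :
    ∃ U : Set Y, IsOpen U ∧ p ⁻¹' U ⊆ O ∧ ∀ y, p ⁻¹' {y} ⊆ O → y ∈ U := by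
  refine ⟨(p '' Oᶜ)ᶜ, ?_, ?_, ?_⟩
  · exact (hO.isClosed_compl.isCompact.image hp).isClosed.isOpen_compl
  · intro x hx
    by_contra hxO
    exact hx ⟨x, hxO, rfl⟩
  · rintro y hy ⟨x, hxO, rfl⟩
    exact hxO (hy rfl)

theorem clopen_between {W : Type*} [TopologicalSpace W] [CompactSpace W] [T2Space W] (w : W)
    {O : Set W} (hO : IsOpen O) (hw : connectedComponent w ⊆ O) :
    ∃ C, IsClopen C ∧ w ∈ C ∧ C ⊆ O := by
  rw [connectedComponent_eq_iInter_isClopen] at hw
  haveI : Nonempty {s : Set W // IsClopen s ∧ w ∈ s} := ⟨⟨univ, isClopen_univ, mem_univ _⟩⟩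
  obtain ⟨⟨C, hC, hwC⟩, hCO⟩ := exists_subset_nhds_of_isCompact'
    (V := fun s : {s : Set W // IsClopen s ∧ w ∈ s} => (s : Set W)) (U := O)
    (by
      rintro ⟨s, hs, hws⟩ ⟨t, ht, hwt⟩
      exact ⟨⟨s ∩ t, hs.inter ht, hws, hwt⟩, inter_subset_left, inter_subset_right⟩)
    (fun s => s.2.1.1.isCompact) (fun s => s.2.1.1) (fun x hx => hO.mem_nhds (hw hx))
  exact ⟨C, hC, hwC, hCO⟩

/-- minimal elements for families of integer valued functions on a compact space -/
theorem exists_min {W : Type*} [TopologicalSpace W] [CompactSpace W] [Nonempty W]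
    (F : Set (W → ℤ)) (hF : ∀ h ∈ F, Continuous h) :
    ∃ w : W, ∀ w', (∀ h ∈ F, h w' ≤ h w) → ∀ h ∈ F, h w ≤ h w' := by
  let S : Set (Set W) := {A | IsClosed A ∧ A.Nonempty ∧
    ∀ w ∈ A, ∀ w', (∀ h ∈ F, h w' ≤ h w) → w' ∈ A}
  obtain ⟨A, hA⟩ := zorn_superset S (by
    intro c hc hchain
    rcases c.eq_empty_or_nonempty with rfl | hne
    · exact ⟨univ, ⟨isClosed_univ, univ_nonempty, fun _ _ _ _ => mem_univ _⟩, by simp⟩
    · refine ⟨⋂₀ c, ⟨?_, ?_, ?_⟩, fun s hs => sInter_subset_of_mem hs⟩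
      · exact isClosed_sInter fun s hs => (hc hs).1
      · have : Nonempty c := hne.to_subtype
        have hdir : DirectedOn (· ⊇ ·) c := by
          intro s hs t ht
          rcases hchain.total hs ht with h1 | h1
          · exact ⟨s, hs, subset_rfl, h1⟩
          · exact ⟨t, ht, h1, subset_rfl⟩
        exact IsCompact.nonempty_sInter_of_directed_nonempty_isCompact_isClosed hdir (fun s hs => (hc hs).2.1) (fun s hs => (hc hs).1.isCompact)
          (fun s hs => (hc hs).1)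
      · intro w hw w' hw' s hs
        exact (hc hs).2.2 w (hw s hs) w' hw')
  obtain ⟨w, hw⟩ := hA.prop.2.1
  refine ⟨w, fun w' hw' => ?_⟩
  have hw'A : w' ∈ A := hA.prop.2.2 w hw w' hw'
  let L : Set W := ⋂ h ∈ F, {z | h z ≤ h w'}
  have hL : L ∈ S := by
    refine ⟨?_, ⟨w', ?_⟩, ?_⟩
    · exact isClosed_biInter fun h hh => isClosed_le (hF h hh) continuous_const
    · simp [L]
    · intro z hz z' hz'
      simp only [L, mem_iInter, mem_setOf_eq] at hz ⊢
      intro h hh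
      exact (hz' h hh).trans (hz h hh)
  have hLA : L ⊆ A := by
    intro z hz
    simp only [L, mem_iInter, mem_setOf_eq] at hz
    exact hA.prop.2.2 w' hw'A z hz
  have : w ∈ L := hA.le_of_le hL hLA hw
  simp only [L, mem_iInter, mem_setOf_eq] at this
  exact this

/-! ### two-point fibres -/

/-- every fibre of `p` is empty or `{x, i x}` with `i x ≠ x` -/
structure Two {X Y : Type*} [TopologicalSpace X] [TopologicalSpace Y] (p : X → Y)
    (i : X → X) : Prop where
  cont : Continuous p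
  ne : ∀ x, i x ≠ x
  map : ∀ x, p (i x) = p x
  eq : ∀ a b, p a = p b → b = a ∨ b = i a

section

variable {X Y : Type*} [MetricSpace X] [CompactSpace X] [MetricSpace Y] [CompactSpace Y]
  {p : X → Y} {i : X → X}

theorem Two.inv (h : Two p i) (x : X) : i (i x) = x := by
  rcases h.eq (i x) x (h.map x) with h1 | h1
  · exact absurd h1.symm (h.ne x)
  · exact h1.symm

/-- closure of the graph of the involution -/
def Wset (i : X → X) : Set (X × X) := closure (range fun x => (x, i x))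

theorem mem_Wset_self (i : X → X) (a : X) : (a, i a) ∈ Wset i := subset_closure ⟨a, rfl⟩

theorem Two.map_W (h : Two p i) {q : X × X} (hq : q ∈ Wset i) : p q.1 = p q.2 := by
  have hc : IsClosed {q : X × X | p q.1 = p q.2} :=
    isClosed_eq (h.cont.comp continuous_fst) (h.cont.comp continuous_snd)
  refine closure_minimal ?_ hc hq
  rintro _ ⟨x, rfl⟩
  exact (h.map x).symm

theorem Two.cases_W (h : Two p i) {a b : X} (hq : (a, b) ∈ Wset i) : b = a ∨ b = i a :=
  h.eq a b (h.map_W hq)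

theorem Two.swap_W (h : Two p i) {a b : X} (hq : (a, b) ∈ Wset i) : (b, a) ∈ Wset i := by
  have : Prod.swap (a, b) ∈ closure (range fun x => (x, i x)) := by
    refine map_mem_closure continuous_swap hq ?_
    rintro _ ⟨x, rfl⟩
    exact ⟨i x, by simp [h.inv]⟩
  exact this

/-- no clopen piece of `W` off the diagonal -/
theorem no_clopen (hY : TreeLike Y) (h : Two p i) [ConnectedSpace X] (C : Set (X × X))
    (hCW : C ⊆ Wset i) (hCc : IsClosed C) (O : Set (X × X)) (hO : IsOpen O)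
    (hCO : ∀ q ∈ Wset i, q ∈ O → q ∈ C) (hCO' : C ⊆ O)
    (hsym : ∀ a b, (a, b) ∈ C → (b, a) ∈ C) (hdiag : ∀ a, (a, a) ∉ C) : C = ∅ := by
  classical
  letI : TopologicalSpace (ZMod 2) := ⊥
  haveI : DiscreteTopology (ZMod 2) := ⟨rfl⟩
  have key : ∃ f : X → ZMod 2, Continuous f ∧ ∀ a b, p a = p b →
      f a - f b = if (a, b) ∈ C then 1 else 0 := by
    apply glue hY p h.cont (fun a b => if (a, b) ∈ C then 1 else 0)
    intro y
    by_cases hy : y ∈ range p
    swap
    · refine ⟨(range p)ᶜ, (isCompact_range h.cont).isClosed.isOpen_compl, hy, fun _ => 0,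
        continuousOn_const, ?_⟩
      intro a b ha
      exact absurd ⟨a, rfl⟩ ha
    obtain ⟨x, rfl⟩ := hy
    -- neighbourhoods avoiding C near the diagonal
    have hoff : ∀ z : X, ∃ A, IsOpen A ∧ z ∈ A ∧ ∀ a ∈ A, ∀ b ∈ A, (a, b) ∉ C := by
      intro z
      have : Cᶜ ∈ 𝓝 (z, z) := hCc.isOpen_compl.mem_nhds (hdiag z)
      obtain ⟨u, v, hu, hzu, hv, hzv, huv⟩ := mem_nhds_prod_iff'.1 this
      exact ⟨u ∩ v, hu.inter hv, ⟨hzu, hzv⟩, fun a ha b hb hab => huv ⟨ha.1, hb.2⟩ hab⟩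
    obtain ⟨A, hA, hxA, hAC⟩ := hoff x
    obtain ⟨A', hA', hxA', hAC'⟩ := hoff (i x)
    obtain ⟨B, B', hB, hB', hxB, hxB', hBB'⟩ := t2_separation (h.ne x).symm
    -- near (x, i x) membership in C is constant
    have hmid : ∃ D D', IsOpen D ∧ x ∈ D ∧ IsOpen D' ∧ i x ∈ D' ∧ ∀ a ∈ D, ∀ b ∈ D',
        (a, b) ∈ Wset i → ((a, b) ∈ C ↔ (x, i x) ∈ C) := by
      by_cases hx : (x, i x) ∈ C
      · obtain ⟨u, v, hu, hzu, hv, hzv, huv⟩ := mem_nhds_prod_iff'.1 (hO.mem_nhds (hCO' hx))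
        exact ⟨u, v, hu, hzu, hv, hzv, fun a ha b hb hab =>
          ⟨fun _ => hx, fun _ => hCO _ hab (huv ⟨ha, hb⟩)⟩⟩
      · obtain ⟨u, v, hu, hzu, hv, hzv, huv⟩ :=
          mem_nhds_prod_iff'.1 (hCc.isOpen_compl.mem_nhds hx)
        exact ⟨u, v, hu, hzu, hv, hzv, fun a ha b hb hab =>
          ⟨fun h1 => absurd h1 (huv ⟨ha, hb⟩), fun h1 => absurd h1 hx⟩⟩
    obtain ⟨D, D', hD, hxD, hD', hxD', hDC⟩ := hmid
    let N := A ∩ B ∩ D
    let N' := A' ∩ B' ∩ D'
    have hN : IsOpen N := (hA.inter hB).inter hD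
    have hN' : IsOpen N' := (hA'.inter hB').inter hD'
    have hdis : ∀ a, a ∈ N → a ∉ N' := fun a ha ha' =>
      (Set.disjoint_left.1 hBB') ha.1.2 ha'.1.2
    obtain ⟨U, hU, hUN, hyU⟩ := tube h.cont (hN.union hN')
    refine ⟨U, hU, hyU _ ?_, fun a => if a ∈ N' then (if (x, i x) ∈ C then 1 else 0) else 0,
      ?_, ?_⟩
    · intro z hz
      rcases h.eq x z (by exact hz.symm) with rfl | rfl
      · exact Or.inl ⟨⟨hxA, hxB⟩, hxD⟩
      · exact Or.inr ⟨⟨hxA', hxB'⟩, hxD'⟩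
    · apply continuousOn_of_locConst
      intro w hw
      rcases hUN hw with h1 | h1
      · refine ⟨N, hN, h1, fun w' hw' _ => ?_⟩
        rw [if_neg (hdis _ h1), if_neg (hdis _ hw')]
      · refine ⟨N', hN', h1, fun w' hw' _ => ?_⟩
        rw [if_pos h1, if_pos hw']
    · intro a b haU hab
      simp only
      have haN : a ∈ N ∪ N' := hUN haU
      have hbN : b ∈ N ∪ N' := hUN (by show p b ∈ U; rw [← hab]; exact haU)
      rcases h.eq a b hab with rfl | rfl
      · rw [if_neg (hdiag _)]; ring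
      · have hW := mem_Wset_self i a
        rcases haN with h1 | h1 <;> rcases hbN with h2 | h2
        · rw [if_neg (hdis _ h1), if_neg (hdis _ h2), if_neg (hAC _ h1.1.1 _ h2.1.1)]; ring
        · rw [if_neg (hdis _ h1), if_pos h2]
          have := hDC _ h1.2 _ h2.2 hW
          by_cases hx : (x, i x) ∈ C
          · rw [if_pos hx, if_pos (this.2 hx)]; decide
          · rw [if_neg hx, if_neg fun h3 => hx (this.1 h3)]; ring
        · rw [if_pos h1, if_neg (hdis _ h2)]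
          have := hDC _ h2.2 _ h1.2 (h.swap_W hW)
          by_cases hx : (x, i x) ∈ C
          · rw [if_pos hx, if_pos (hsym _ _ (this.2 hx))]; ring
          · rw [if_neg hx, if_neg fun h3 => hx (this.1 (hsym _ _ h3))]; ring
        · rw [if_pos h1, if_pos h2, if_neg (hAC' _ h1.1.1 _ h2.1.1)]; ring
  obtain ⟨f, hf, hfC⟩ := key
  rw [eq_empty_iff_forall_notMem]
  rintro ⟨a, b⟩ hab
  rcases h.cases_W (hCW hab) with rfl | rfl
  · exact hdiag _ hab
  · have h1 := hfC a (i a) (h.map a).symm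
    rw [if_pos hab] at h1
    have h2 : f a = f (i a) := PreconnectedSpace.constant inferInstance hf
    rw [h2, sub_self] at h1
    exact absurd h1 (by decide)

/-- the height function of an admissible set of double points -/
theorem exists_height (hY : TreeLike Y) (h : Two p i) (H : Set X)
    (hHc : IsClosed H)
    (hHi : ∀ x ∈ H, ∀ N', IsOpen N' → i x ∈ N' → ∃ N, IsOpen N ∧ x ∈ N ∧
      ∀ a ∈ H, a ∈ N → i a ∈ N')
    (hHo : ∀ x ∈ H, ∃ N N', IsOpen N ∧ x ∈ N ∧ IsOpen N' ∧ i x ∈ N' ∧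
      ∀ a, (a, a) ∈ Wset i → a ∈ N → i a ∈ N' → a ∈ H) :
    ∃ f : Wset i → ℤ, Continuous f ∧ ∀ a (ha : (a, a) ∈ Wset i),
      f ⟨(a, a), ha⟩ - f ⟨(a, i a), mem_Wset_self i a⟩ = (by classical exact if a ∈ H then 1 else 0) := by
  classical
  haveI : CompactSpace (Wset i) := isCompact_iff_compactSpace.1 isClosed_closure.isCompact
  let B : X × X → ℤ := fun w => if w.1 = w.2 ∧ w.1 ∈ H then 1 else 0
  have hB1 : ∀ a, a ∈ H → B (a, a) = 1 := fun a ha => if_pos ⟨rfl, ha⟩
  have hB0 : ∀ a, a ∉ H → B (a, a) = 0 := fun a ha => if_neg fun hh => ha hh.2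
  have hB2 : ∀ a, B (a, i a) = 0 := fun a => if_neg fun hh => h.ne a hh.1.symm
  have hpW : Continuous (fun w : Wset i => p w.1.1) :=
    h.cont.comp (continuous_fst.comp continuous_subtype_val)
  have key : ∃ f : Wset i → ℤ, Continuous f ∧ ∀ a b : Wset i, p a.1.1 = p b.1.1 →
      f a - f b = B a.1 - B b.1 := by
    apply glue hY (fun w : Wset i => p w.1.1) hpW (fun a b => B a.1 - B b.1)
    intro y
    by_cases hy : y ∈ range p
    swap
    · refine ⟨(range p)ᶜ, (isCompact_range h.cont).isClosed.isOpen_compl, hy, fun _ => 0,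
        continuousOn_const, ?_⟩
      intro a b ha
      exact absurd ⟨a.1.1, rfl⟩ ha
    obtain ⟨x, rfl⟩ := hy
    -- the basic neighbourhoods
    have exQ : ∀ z : X, ∃ N N', IsOpen N ∧ z ∈ N ∧ IsOpen N' ∧ i z ∈ N' ∧ Disjoint N N' ∧
        ∀ a, (a, a) ∈ Wset i → a ∈ N → (a ∈ H → z ∈ H ∧ i a ∈ N') ∧
          (z ∈ H → i a ∈ N' → a ∈ H) := by
      intro z
      obtain ⟨A, A', hA, hA', hzA, hzA', hAA'⟩ := t2_separation (h.ne z).symm
      by_cases hz : z ∈ H
      · obtain ⟨N1, N1', hN1, hzN1, hN1', hzN1', hh⟩ := hHo z hz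
        obtain ⟨N2, hN2, hzN2, hh2⟩ := hHi z hz (A' ∩ N1') (hA'.inter hN1') ⟨hzA', hzN1'⟩
        refine ⟨A ∩ N1 ∩ N2, A' ∩ N1', (hA.inter hN1).inter hN2, ⟨⟨hzA, hzN1⟩, hzN2⟩,
          hA'.inter hN1', ⟨hzA', hzN1'⟩, ?_, ?_⟩
        · exact hAA'.mono (fun a ha => ha.1.1) (fun a ha => ha.1)
        · intro a ha haN
          exact ⟨fun haH => ⟨hz, hh2 a haH haN.2⟩, fun _ hia => hh a ha haN.1.2 hia.2⟩
      · refine ⟨A ∩ Hᶜ, A', hA.inter hHc.isOpen_compl, ⟨hzA, hz⟩, hA', hzA', ?_, ?_⟩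
        · exact hAA'.mono (fun a ha => ha.1) (fun a ha => ha)
        · intro a ha haN
          exact ⟨fun haH => absurd haH haN.2, fun hzH => absurd hzH hz⟩
    obtain ⟨N0, N0', hN0, hxN0, hN0', hxN0', hd0, hQ0⟩ := exQ x
    obtain ⟨M0, M0', hM0, hxM0, hM0', hxM0', hd1, hQ1⟩ := exQ (i x)
    rw [h.inv] at hxM0'
    let N := N0 ∩ M0'
    let N' := N0' ∩ M0
    have hN : IsOpen N := hN0.inter hM0'
    have hN' : IsOpen N' := hN0'.inter hM0
    have hdis : ∀ a, a ∈ N → a ∉ N' := fun a ha ha' => (Set.disjoint_left.1 hd0) ha.1 ha'.1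
    obtain ⟨U, hU, hUN, hyU⟩ := tube h.cont (hN.union hN')
    let g : X × X → ℤ := fun w => if w.1 ∈ N ∧ w.2 ∈ N then (if x ∈ H then 1 else 0)
      else if w.1 ∈ N' ∧ w.2 ∈ N' then (if i x ∈ H then 1 else 0) else 0
    have g1 : ∀ a b, a ∈ N → b ∈ N → g (a, b) = if x ∈ H then 1 else 0 := by
      intro a b ha hb
      simp only [g]
      rw [if_pos ⟨ha, hb⟩]
    have g2 : ∀ a b, a ∈ N' → b ∈ N' → g (a, b) = if i x ∈ H then 1 else 0 := by
      intro a b ha hb
      simp only [g]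
      rw [if_neg fun hh => hdis _ hh.1 ha, if_pos ⟨ha, hb⟩]
    have g3 : ∀ a b, a ∈ N → b ∈ N' → g (a, b) = 0 := by
      intro a b ha hb
      simp only [g]
      rw [if_neg fun hh => hdis _ hh.2 hb, if_neg fun hh => hdis _ ha hh.1]
    have g4 : ∀ a b, a ∈ N' → b ∈ N → g (a, b) = 0 := by
      intro a b ha hb
      simp only [g]
      rw [if_neg fun hh => hdis _ hh.1 ha, if_neg fun hh => hdis _ hb hh.2]
    have hUa : ∀ a, p a ∈ U → a ∈ N ∪ N' := fun a ha => hUN ha
    have hUi : ∀ a, p a ∈ U → i a ∈ N ∪ N' := fun a ha =>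
      hUN (by show p (i a) ∈ U; rw [h.map]; exact ha)
    -- symmetric
    have hsymm : ∀ a, p a ∈ U → g (i a, a) = g (a, i a) := by
      intro a ha
      rcases hUa a ha with h1 | h1 <;> rcases hUi a ha with h2 | h2
      · rw [g1 _ _ h1 h2, g1 _ _ h2 h1]
      · rw [g3 _ _ h1 h2, g4 _ _ h2 h1]
      · rw [g4 _ _ h1 h2, g3 _ _ h2 h1]
      · rw [g2 _ _ h1 h2, g2 _ _ h2 h1]
    have hval : ∀ a b, (a, b) ∈ Wset i → p a ∈ U → g (a, b) - B (a, b) = g (a, i a) := by
      intro a b hab ha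
      rcases h.cases_W hab with rfl | rfl
      · rcases hUa _ ha with h1 | h1 <;> rcases hUi _ ha with h2 | h2
        · have hbH : b ∉ H := fun hb =>
            (Set.disjoint_left.1 hd0) h2.1 ((hQ0 _ hab h1.1).1 hb).2
          rw [g1 _ _ h1 h2, g1 _ _ h1 h1, hB0 _ hbH, sub_zero]
        · rw [g3 _ _ h1 h2, g1 _ _ h1 h1]
          by_cases hx : x ∈ H
          · rw [if_pos hx, hB1 _ ((hQ0 _ hab h1.1).2 hx h2.1), sub_self]
          · rw [if_neg hx, hB0 _ fun hb => hx ((hQ0 _ hab h1.1).1 hb).1, sub_self]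
        · rw [g4 _ _ h1 h2, g2 _ _ h1 h1]
          by_cases hx : i x ∈ H
          · rw [if_pos hx, hB1 _ ((hQ1 _ hab h1.2).2 hx h2.2), sub_self]
          · rw [if_neg hx, hB0 _ fun hb => hx ((hQ1 _ hab h1.2).1 hb).1, sub_self]
        · have hbH : b ∉ H := fun hb =>
            (Set.disjoint_left.1 hd1) h2.2 ((hQ1 _ hab h1.2).1 hb).2
          rw [g2 _ _ h1 h2, g2 _ _ h1 h1, hB0 _ hbH, sub_zero]
      · rw [hB2, sub_zero]
    refine ⟨U, hU, hyU _ ?_, fun w => g w.1, ?_, ?_⟩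
    · intro z hz
      rcases h.eq x z (by exact hz.symm) with rfl | rfl
      · exact Or.inl ⟨hxN0, hxM0'⟩
      · exact Or.inr ⟨hxN0', hxM0⟩
    · apply continuousOn_of_locConst
      rintro ⟨⟨a, b⟩, hab⟩ hw
      have ha : a ∈ N ∪ N' := hUa a hw
      have hb : b ∈ N ∪ N' := hUN (by
        show p b ∈ U
        have : p a = p b := h.map_W hab
        rw [← this]; exact hw)
      have c1 : Continuous (fun w : Wset i => w.1.1) :=
        continuous_fst.comp continuous_subtype_val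
      have c2 : Continuous (fun w : Wset i => w.1.2) :=
        continuous_snd.comp continuous_subtype_val
      rcases ha with h1 | h1 <;> rcases hb with h2 | h2
      · refine ⟨(fun w : Wset i => w.1.1) ⁻¹' N ∩ (fun w : Wset i => w.1.2) ⁻¹' N,
          (hN.preimage c1).inter (hN.preimage c2), ⟨h1, h2⟩, ?_⟩
        rintro ⟨⟨a', b'⟩, hab'⟩ hw' _
        exact (g1 _ _ hw'.1 hw'.2).trans (g1 _ _ h1 h2).symm
      · refine ⟨(fun w : Wset i => w.1.1) ⁻¹' N ∩ (fun w : Wset i => w.1.2) ⁻¹' N',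
          (hN.preimage c1).inter (hN'.preimage c2), ⟨h1, h2⟩, ?_⟩
        rintro ⟨⟨a', b'⟩, hab'⟩ hw' _
        exact (g3 _ _ hw'.1 hw'.2).trans (g3 _ _ h1 h2).symm
      · refine ⟨(fun w : Wset i => w.1.1) ⁻¹' N' ∩ (fun w : Wset i => w.1.2) ⁻¹' N,
          (hN'.preimage c1).inter (hN.preimage c2), ⟨h1, h2⟩, ?_⟩
        rintro ⟨⟨a', b'⟩, hab'⟩ hw' _
        exact (g4 _ _ hw'.1 hw'.2).trans (g4 _ _ h1 h2).symm
      · refine ⟨(fun w : Wset i => w.1.1) ⁻¹' N' ∩ (fun w : Wset i => w.1.2) ⁻¹' N',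
          (hN'.preimage c1).inter (hN'.preimage c2), ⟨h1, h2⟩, ?_⟩
        rintro ⟨⟨a', b'⟩, hab'⟩ hw' _
        exact (g2 _ _ hw'.1 hw'.2).trans (g2 _ _ h1 h2).symm
    · rintro ⟨⟨a, b⟩, hab⟩ ⟨⟨a', b'⟩, hab'⟩ haU heq
      simp only at haU heq ⊢
      have ha'U : p a' ∈ U := heq ▸ haU
      have e1 := hval a b hab haU
      have e2 := hval a' b' hab' ha'U
      have e3 : g (a', i a') = g (a, i a) := by
        rcases h.eq a a' heq with rfl | rfl
        · rfl
        · rw [h.inv]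
          exact hsymm a haU
      linarith
  obtain ⟨f, hf, hfB⟩ := key
  refine ⟨f, hf, ?_⟩
  intro a ha
  have h1 := hfB ⟨(a, a), ha⟩ ⟨(a, i a), mem_Wset_self i a⟩ rfl
  rw [h1]
  show B (a, a) - B (a, i a) = _
  rw [hB2, sub_zero]
  by_cases haH : a ∈ H
  · rw [hB1 _ haH, if_pos haH]
  · rw [hB0 _ haH, if_neg haH]

/-- by Baire's theorem some fibre contains no double point -/
theorem exists_simple (h : Two p i) [Nonempty X] :
    ∃ x, (x, x) ∉ Wset i ∧ (i x, i x) ∉ Wset i := by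
  let F : ℕ → Set X := fun n => {x | 1 / ((n : ℝ) + 1) ≤ dist x (i x)}
  have hFc : ∀ n, IsCompact (F n) := by
    intro n
    have : F n = Prod.fst '' {q : X × X | p q.1 = p q.2 ∧ 1 / ((n : ℝ) + 1) ≤ dist q.1 q.2} := by
      ext x
      constructor
      · intro hx
        exact ⟨(x, i x), ⟨(h.map x).symm, hx⟩, rfl⟩
      · rintro ⟨⟨a, b⟩, ⟨hab, hd⟩, rfl⟩
        have hpos : (0 : ℝ) < 1 / ((n : ℝ) + 1) := by positivity
        rcases h.eq a b hab with rfl | rfl
        · simp only [dist_self] at hd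
          linarith
        · exact hd
    rw [this]
    refine IsCompact.image (IsClosed.isCompact ?_) continuous_fst
    exact (isClosed_eq (h.cont.comp continuous_fst) (h.cont.comp continuous_snd)).inter
      (isClosed_le continuous_const (continuous_fst.dist continuous_snd))
  have hFi : ∀ n x, x ∈ F n → i x ∈ F n := by
    intro n x hx
    show 1 / ((n : ℝ) + 1) ≤ dist (i x) (i (i x))
    rw [h.inv, dist_comm]
    exact hx
  have hFx : ∀ x, ∃ n, x ∈ F n := by
    intro x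
    have hd : 0 < dist x (i x) := dist_pos.2 (h.ne x).symm
    obtain ⟨n, hn⟩ := exists_nat_one_div_lt hd
    exact ⟨n, hn.le⟩
  let f : ℕ → Set (range p) := fun n => {y | (y : Y) ∈ p '' (F n)}
  have hf : ∀ n, IsClosed (f n) := fun n =>
    ((hFc n).image h.cont).isClosed.preimage continuous_subtype_val
  have hfU : ⋃ n, f n = univ := by
    rw [eq_univ_iff_forall]
    rintro ⟨_, x, rfl⟩
    obtain ⟨n, hn⟩ := hFx x
    exact mem_iUnion.2 ⟨n, x, hn, rfl⟩
  have : CompactSpace (range p) := isCompact_iff_compactSpace.1 (isCompact_range h.cont)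
  have : Nonempty (range p) := ⟨⟨p (Classical.arbitrary X), mem_range_self _⟩⟩
  obtain ⟨n, y0, hy0⟩ := nonempty_interior_of_iUnion_of_closed hf hfU
  obtain ⟨O', hO's, hO'o, hy0O'⟩ := mem_interior.1 hy0
  obtain ⟨O, hO, rfl⟩ := isOpen_induced_iff.1 hO'o
  obtain ⟨x, hx⟩ := y0.2
  have key : ∀ z, p z ∈ O → (z, z) ∉ Wset i := by
    intro z hz hzW
    have hpos : (0 : ℝ) < 1 / ((n : ℝ) + 1) := by positivity
    have hnb : {q : X × X | p q.1 ∈ O ∧ dist q.1 q.2 < 1 / ((n : ℝ) + 1)} ∈ 𝓝 (z, z) := by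
      refine IsOpen.mem_nhds ?_ ⟨hz, by simpa using hpos⟩
      exact (hO.preimage (h.cont.comp continuous_fst)).inter
        (isOpen_lt (continuous_fst.dist continuous_snd) continuous_const)
    obtain ⟨_, ⟨hq1, hq2⟩, a, rfl⟩ := mem_closure_iff_nhds.1 hzW _ hnb
    have h1 : (⟨p a, mem_range_self a⟩ : range p) ∈ f n := hO's hq1
    obtain ⟨b, hb, hba⟩ := h1
    have haF : a ∈ F n := by
      rcases h.eq b a hba with rfl | rfl
      · exact hb
      · exact hFi n _ hb
    have : 1 / ((n : ℝ) + 1) ≤ dist a (i a) := haF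
    simp only at hq2
    linarith
  have hxO : p x ∈ O := by rw [hx]; exact hy0O'
  exact ⟨x, key x hxO, key (i x) (by rw [h.map]; exact hxO)⟩

/-- the main contradiction for a minimal example -/
theorem main_contra (hY : TreeLike Y) (h : Two p i) [ConnectedSpace X]
    (hmin : ∀ Z : Set Y, IsClosed Z → (p ⁻¹' Z).Nonempty → p ⁻¹' Z ≠ univ →
      ¬ IsPreconnected (p ⁻¹' Z)) : False := by
  classical
  have cW : CompactSpace (Wset i) := isCompact_iff_compactSpace.1 isClosed_closure.isCompact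
  obtain ⟨x0, hx0, hx0'⟩ := exists_simple h
  have : Nonempty (Wset i) := ⟨⟨_, mem_Wset_self i x0⟩⟩
  let 𝓗 : Set (Wset i → ℤ) := {f | Continuous f ∧ ∀ a (ha : (a, a) ∈ Wset i),
    f ⟨(a, i a), mem_Wset_self i a⟩ ≤ f ⟨(a, a), ha⟩}
  obtain ⟨w, hw⟩ := exists_min 𝓗 (fun f hf => hf.1)
  -- the component of w meets the diagonal
  obtain ⟨t1, ht1, ht1w⟩ : ∃ t1, ∃ ht1 : (t1, t1) ∈ Wset i,
      (⟨(t1, t1), ht1⟩ : Wset i) ∈ connectedComponent w := by
    by_contra hcon
    push Not at hcon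
    have hopen : IsOpen {z : Wset i | z.1.1 ≠ z.1.2} :=
      isOpen_ne_fun (continuous_fst.comp continuous_subtype_val)
        (continuous_snd.comp continuous_subtype_val)
    obtain ⟨C, hC, hwC, hCd⟩ := clopen_between w hopen (by
      rintro ⟨⟨a, b⟩, hab⟩ hz heq
      simp only at heq
      subst heq
      exact hcon a hab hz)
    obtain ⟨O, hO, hOC⟩ := isOpen_induced_iff.1 hC.isOpen
    have hmem : ∀ z : Wset i, z ∈ C ↔ z.1 ∈ O := by
      intro z; rw [← hOC]; rfl
    have hcl : IsClosed (Wset i ∩ O) := by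
      have h1 : Wset i ∩ O = Subtype.val '' C := by
        ext z
        constructor
        · rintro ⟨hz1, hz2⟩
          exact ⟨⟨z, hz1⟩, (hmem _).2 hz2, rfl⟩
        · rintro ⟨z', hz', rfl⟩
          exact ⟨z'.2, (hmem _).1 hz'⟩
      rw [h1]
      exact (hC.isClosed.isCompact.image continuous_subtype_val).isClosed
    have hC' := no_clopen hY h (Wset i ∩ (O ∪ Prod.swap ⁻¹' O)) inter_subset_left
      (by
        have h2 : Wset i ∩ (O ∪ Prod.swap ⁻¹' O) =
            (Wset i ∩ O) ∪ Prod.swap ⁻¹' (Wset i ∩ O) := by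
          ext ⟨a, b⟩
          simp only [mem_inter_iff, mem_union, mem_preimage, Prod.swap_prod_mk]
          constructor
          · rintro ⟨h1, h2 | h2⟩
            · exact Or.inl ⟨h1, h2⟩
            · exact Or.inr ⟨h.swap_W h1, h2⟩
          · rintro (⟨h1, h2⟩ | ⟨h1, h2⟩)
            · exact ⟨h1, Or.inl h2⟩
            · exact ⟨h.swap_W h1, Or.inr h2⟩
        rw [h2]
        exact hcl.union (hcl.preimage continuous_swap))
      (O ∪ Prod.swap ⁻¹' O) (hO.union (hO.preimage continuous_swap))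
      (fun q h1 h2 => ⟨h1, h2⟩) inter_subset_right
      (by
        rintro a b ⟨h1, h2⟩
        refine ⟨h.swap_W h1, ?_⟩
        rcases h2 with h2 | h2
        · exact Or.inr h2
        · exact Or.inl h2)
      (by
        rintro a ⟨h1, h2⟩
        have h3 : (a, a) ∈ O := by
          rcases h2 with h2 | h2
          · exact h2
          · exact h2
        exact hCd ((hmem ⟨(a, a), h1⟩).2 h3) rfl)
    have : w.1 ∈ Wset i ∩ (O ∪ Prod.swap ⁻¹' O) := ⟨w.2, Or.inl ((hmem w).1 hwC)⟩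
    rw [hC'] at this
    exact this
  -- the set of double points
  let Db : Set X := {a | (a, a) ∈ Wset i}
  have hDbc : IsClosed Db := isClosed_closure.preimage (by fun_prop : Continuous fun a : X => (a, a))
  have cDb : CompactSpace Db := isCompact_iff_compactSpace.1 hDbc.isCompact
  let j : Db → Wset i := fun a => ⟨(a.1, a.1), a.2⟩
  have hj : Continuous j := by
    apply Continuous.subtype_mk
    fun_prop
  let D : Set Db := connectedComponent ⟨t1, ht1⟩
  have hDc : IsClosed D := isClosed_connectedComponent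
  have hDM : ∀ a ∈ D, j a ∈ connectedComponent w := by
    intro a ha
    have h1 : IsPreconnected (j '' D) :=
      isPreconnected_connectedComponent.image j hj.continuousOn
    have h2 : j ⟨t1, ht1⟩ ∈ j '' D := mem_image_of_mem _ mem_connectedComponent
    have h3 := h1.subset_connectedComponent h2 (mem_image_of_mem _ ha)
    rw [connectedComponent_eq ht1w]
    exact h3
  let Z : Set Y := (fun a : Db => p a.1) '' D
  have hpc : Continuous (fun a : Db => p a.1) := h.cont.comp continuous_subtype_val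
  have hZc : IsClosed Z := (hDc.isCompact.image hpc).isClosed
  have hZp : IsPreconnected Z := isPreconnected_connectedComponent.image _ hpc.continuousOn
  have hZ1 : (p ⁻¹' Z).Nonempty := ⟨t1, ⟨t1, ht1⟩, mem_connectedComponent, rfl⟩
  have hZ2 : p ⁻¹' Z ≠ univ := by
    intro hU
    have : x0 ∈ p ⁻¹' Z := hU ▸ mem_univ _
    obtain ⟨d, -, hd⟩ := this
    rcases h.eq x0 d.1 (by exact hd.symm) with h1 | h1
    · exact hx0 (h1 ▸ d.2)
    · exact hx0' (h1 ▸ d.2)
  have hZ3 := hmin Z hZc hZ1 hZ2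
  rw [isPreconnected_closed_iff] at hZ3
  push Not at hZ3
  obtain ⟨s, s', hs, hs', hss', hne, hne', hdisj⟩ := hZ3
  let P : Set X := p ⁻¹' Z ∩ s
  let P' : Set X := p ⁻¹' Z ∩ s'
  have hSc : IsClosed (p ⁻¹' Z) := hZc.preimage h.cont
  have hPc : IsCompact P := (hSc.inter hs).isCompact
  have hPc' : IsCompact P' := (hSc.inter hs').isCompact
  have hPP : Disjoint P P' := by
    rw [Set.disjoint_left]
    intro a ha ha'
    have : a ∈ p ⁻¹' Z ∩ (s ∩ s') := ⟨ha.1, ha.2, ha'.2⟩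
    rw [hdisj] at this
    exact this
  have hcovP : ∀ a, p a ∈ Z → a ∈ P ∨ a ∈ P' := by
    intro a ha
    rcases hss' ha with h1 | h1
    · exact Or.inl ⟨ha, h1⟩
    · exact Or.inr ⟨ha, h1⟩
  -- a point of D with split fibre
  obtain ⟨d, hdD, hd⟩ : ∃ d ∈ D, (d.1 ∈ P ∧ i d.1 ∈ P') ∨ (d.1 ∈ P' ∧ i d.1 ∈ P) := by
    obtain ⟨y, hyZ, ⟨a, haP, hay⟩, ⟨b, hbP, hby⟩⟩ :=
      isPreconnected_closed_iff.1 hZp (p '' P) (p '' P') (hPc.image h.cont).isClosed
        (hPc'.image h.cont).isClosed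
        (by
          intro y hy
          obtain ⟨d, hd, hdy⟩ := hy
          have hdZ : p d.1 ∈ Z := ⟨d, hd, rfl⟩
          rcases hcovP d.1 hdZ with h1 | h1
          · exact Or.inl ⟨d.1, h1, hdy⟩
          · exact Or.inr ⟨d.1, h1, hdy⟩)
        (by
          obtain ⟨a, ha⟩ := hne
          exact ⟨p a, ha.1, a, ha, rfl⟩)
        (by
          obtain ⟨a, ha⟩ := hne'
          exact ⟨p a, ha.1, a, ha, rfl⟩)
    have hab : b = i a := by
      rcases h.eq a b (hay.trans hby.symm) with h1 | h1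
      · subst h1
        exact absurd hbP ((Set.disjoint_left.1 hPP) haP)
      · exact h1
    obtain ⟨d, hdD, hdy⟩ := hyZ
    refine ⟨d, hdD, ?_⟩
    rcases h.eq a d.1 (hay.trans (by exact hdy.symm)) with h1 | h1
    · left
      rw [h1, ← hab]
      exact ⟨haP, hbP⟩
    · right
      rw [h1, h.inv, ← hab]
      exact ⟨hbP, haP⟩
  -- open neighbourhoods
  obtain ⟨N, N', hN, hN', hPN, hPN', hNN⟩ := SeparatedNhds.of_isCompact_isCompact hPc hPc' hPP
  have hdis : ∀ a, a ∈ N → a ∉ N' := fun a ha => (Set.disjoint_left.1 hNN) ha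
  obtain ⟨O, hO, hON, hOZ⟩ := tube h.cont (hN.union hN')
  have hZO : ∀ y ∈ Z, y ∈ O := by
    intro y hy
    apply hOZ
    intro a ha
    have haZ : p a ∈ Z := by
      have : p a = y := ha
      rw [this]; exact hy
    rcases hcovP a haZ with h1 | h1
    · exact Or.inl (hPN h1)
    · exact Or.inr (hPN' h1)
  obtain ⟨CD, hCD, hdCD, hCDO⟩ := clopen_between d (hO.preimage hpc) (by
    intro a ha
    have h1 : connectedComponent d = D := (connectedComponent_eq hdD).symm
    rw [h1] at ha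
    exact hZO _ ⟨a, ha, rfl⟩)
  obtain ⟨OD, hOD, hODC⟩ := isOpen_induced_iff.1 hCD.isOpen
  have hmemCD : ∀ a : Db, a ∈ CD ↔ a.1 ∈ OD := by
    intro a; rw [← hODC]; rfl
  let H : Set X := {a | ∃ ha : (a, a) ∈ Wset i, (⟨a, ha⟩ : Db) ∈ CD ∧
    ((a ∈ N ∧ i a ∈ N') ∨ (a ∈ N' ∧ i a ∈ N))}
  have hCDX : IsClosed (Subtype.val '' CD : Set X) :=
    (hCD.isClosed.isCompact.image continuous_subtype_val).isClosed
  have hHc : IsClosed H := by
    rw [← isOpen_compl_iff, isOpen_iff_mem_nhds]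
    intro x hx
    by_cases hxCD : x ∈ (Subtype.val '' CD : Set X)
    · obtain ⟨⟨x', hx'D⟩, hxC, rfl⟩ := hxCD
      simp only at hx ⊢
      have hpx : p x' ∈ O := hCDO hxC
      have h1 : x' ∈ N ∪ N' := hON hpx
      have h2 : i x' ∈ N ∪ N' := hON (by show p (i x') ∈ O; rw [h.map]; exact hpx)
      have hsame : (x' ∈ N ∧ i x' ∈ N) ∨ (x' ∈ N' ∧ i x' ∈ N') := by
        rcases h1 with h1 | h1 <;> rcases h2 with h2 | h2
        · exact Or.inl ⟨h1, h2⟩
        · exact absurd ⟨hx'D, hxC, Or.inl ⟨h1, h2⟩⟩ hx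
        · exact absurd ⟨hx'D, hxC, Or.inr ⟨h1, h2⟩⟩ hx
        · exact Or.inr ⟨h1, h2⟩
      rcases hsame with ⟨h3, h4⟩ | ⟨h3, h4⟩
      · obtain ⟨U, hU, hUN, hyU⟩ := tube h.cont hN
        have hxU : p x' ∈ U := hyU _ (by
          intro z hz
          rcases h.eq x' z (by exact hz.symm) with rfl | rfl
          · exact h3
          · exact h4)
        filter_upwards [(hU.preimage h.cont).mem_nhds hxU] with a ha
        rintro ⟨_, _, h5 | h5⟩
        · have : i a ∈ N := hUN (by show p (i a) ∈ U; rw [h.map]; exact ha)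
          exact hdis _ this h5.2
        · exact hdis _ (hUN ha) h5.1
      · obtain ⟨U, hU, hUN, hyU⟩ := tube h.cont hN'
        have hxU : p x' ∈ U := hyU _ (by
          intro z hz
          rcases h.eq x' z (by exact hz.symm) with rfl | rfl
          · exact h3
          · exact h4)
        filter_upwards [(hU.preimage h.cont).mem_nhds hxU] with a ha
        rintro ⟨_, _, h5 | h5⟩
        · exact hdis _ h5.1 (hUN ha)
        · have : i a ∈ N' := hUN (by show p (i a) ∈ U; rw [h.map]; exact ha)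
          exact hdis _ h5.2 this
    · filter_upwards [hCDX.isOpen_compl.mem_nhds hxCD] with a ha
      rintro ⟨haD, haC, _⟩
      exact ha ⟨⟨a, haD⟩, haC, rfl⟩
  have hHi : ∀ x ∈ H, ∀ N1, IsOpen N1 → i x ∈ N1 → ∃ N0, IsOpen N0 ∧ x ∈ N0 ∧
      ∀ a ∈ H, a ∈ N0 → i a ∈ N1 := by
    rintro x ⟨hxD, hxC, hx⟩ N1 hN1 hxN1
    rcases hx with ⟨h1, h2⟩ | ⟨h1, h2⟩
    · obtain ⟨U, hU, hUN, hyU⟩ := tube h.cont (hN.union (hN1.inter hN'))
      refine ⟨N ∩ p ⁻¹' U, hN.inter (hU.preimage h.cont), ⟨h1, hyU _ ?_⟩, ?_⟩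
      · intro z hz
        rcases h.eq x z (by exact hz.symm) with rfl | rfl
        · exact Or.inl h1
        · exact Or.inr ⟨hxN1, h2⟩
      · rintro a ⟨_, _, ha⟩ ⟨haN, haU⟩
        have hia : i a ∈ N' := by
          rcases ha with ha | ha
          · exact ha.2
          · exact absurd ha.1 (hdis _ haN)
        have h3 : i a ∈ N ∪ N1 ∩ N' := hUN (by show p (i a) ∈ U; rw [h.map]; exact haU)
        rcases h3 with h3 | h3
        · exact absurd hia (hdis _ h3)
        · exact h3.1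
    · obtain ⟨U, hU, hUN, hyU⟩ := tube h.cont (hN'.union (hN1.inter hN))
      refine ⟨N' ∩ p ⁻¹' U, hN'.inter (hU.preimage h.cont), ⟨h1, hyU _ ?_⟩, ?_⟩
      · intro z hz
        rcases h.eq x z (by exact hz.symm) with rfl | rfl
        · exact Or.inl h1
        · exact Or.inr ⟨hxN1, h2⟩
      · rintro a ⟨_, _, ha⟩ ⟨haN, haU⟩
        have hia : i a ∈ N := by
          rcases ha with ha | ha
          · exact absurd haN (hdis _ ha.1)
          · exact ha.2
        have h3 : i a ∈ N' ∪ N1 ∩ N := hUN (by show p (i a) ∈ U; rw [h.map]; exact haU)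
        rcases h3 with h3 | h3
        · exact absurd h3 (hdis _ hia)
        · exact h3.1
  have hHo : ∀ x ∈ H, ∃ N0 N1, IsOpen N0 ∧ x ∈ N0 ∧ IsOpen N1 ∧ i x ∈ N1 ∧
      ∀ a, (a, a) ∈ Wset i → a ∈ N0 → i a ∈ N1 → a ∈ H := by
    rintro x ⟨hxD, hxC, hx⟩
    rcases hx with ⟨h1, h2⟩ | ⟨h1, h2⟩
    · refine ⟨OD ∩ N, N', hOD.inter hN, ⟨(hmemCD _).1 hxC, h1⟩, hN', h2, ?_⟩
      intro a ha haN hia
      exact ⟨ha, (hmemCD ⟨a, ha⟩).2 haN.1, Or.inl ⟨haN.2, hia⟩⟩
    · refine ⟨OD ∩ N', N, hOD.inter hN', ⟨(hmemCD _).1 hxC, h1⟩, hN, h2, ?_⟩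
      intro a ha haN hia
      exact ⟨ha, (hmemCD ⟨a, ha⟩).2 haN.1, Or.inr ⟨haN.2, hia⟩⟩
  obtain ⟨g, hg, hgH⟩ := exists_height hY h H hHc hHi hHo
  have hg𝓗 : g ∈ 𝓗 := by
    refine ⟨hg, fun a ha => ?_⟩
    have := hgH a ha
    split_ifs at this <;> linarith
  have hdH : d.1 ∈ H := by
    refine ⟨d.2, hdCD, ?_⟩
    rcases hd with ⟨h1, h2⟩ | ⟨h1, h2⟩
    · exact Or.inl ⟨hPN h1, hPN' h2⟩
    · exact Or.inr ⟨hPN' h1, hPN h2⟩
  -- all continuous functions agree at w and (d, d)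
  have hconst : ∀ f : Wset i → ℤ, Continuous f → f (j d) = f w := by
    intro f hf
    have hcl : IsClopen (f ⁻¹' {f w}) := (isClopen_discrete _).preimage hf
    exact hcl.connectedComponent_subset rfl (hDM d hdD)
  have hle : ∀ f ∈ 𝓗, f ⟨(d.1, i d.1), mem_Wset_self i d.1⟩ ≤ f w := by
    intro f hf
    rw [← hconst f hf.1]
    exact hf.2 d.1 d.2
  have h1 := hw _ hle g hg𝓗
  have h2 := hgH d.1 d.2
  rw [if_pos hdH] at h2
  have h3 : g ⟨(d.1, d.1), d.2⟩ = g w := hconst g hg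
  linarith

end

/-- the theorem: no exactly 2-to-1 map from a continuum onto a tree-like continuum -/
theorem no_two_to_one (X Y : Type) [MetricSpace X] [CompactSpace X] [ConnectedSpace X]
    [MetricSpace Y] [CompactSpace Y] [ConnectedSpace Y] (hY : TreeLike Y) :
    ¬ ∃ f : X → Y, Continuous f ∧ ∀ y : Y, (f ⁻¹' {y}).ncard = 2 := by
  rintro ⟨f, hf, h2⟩
  -- the involution
  have hex : ∀ x, ∃ x', x' ≠ x ∧ f x' = f x ∧ ∀ b, f x = f b → b = x ∨ b = x' := by
    intro x
    obtain ⟨a, b, hab, hS⟩ := Set.ncard_eq_two.1 (h2 (f x))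
    have hx : x ∈ ({a, b} : Set X) := hS ▸ (rfl : f x = f x)
    have hmem : ∀ z, f x = f z → z ∈ ({a, b} : Set X) := by
      intro z hz
      rw [← hS]
      exact hz.symm
    have hfa : f a = f x := by
      have : a ∈ f ⁻¹' {f x} := by rw [hS]; simp
      exact this
    have hfb : f b = f x := by
      have : b ∈ f ⁻¹' {f x} := by rw [hS]; simp
      exact this
    rcases hx with rfl | hx
    · exact ⟨b, hab.symm, hfb, fun z hz => hmem z hz⟩
    · have hx' : x = b := hx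
      subst hx'
      exact ⟨a, hab, hfa, fun z hz => (hmem z hz).symm⟩
  choose i hi1 hi2 hi3 using hex
  -- a minimal closed set with connected preimage
  let S : Set (Set Y) := {Z | IsClosed Z ∧ Z.Nonempty ∧ IsPreconnected (f ⁻¹' Z)}
  have hsurj : Function.Surjective f := by
    intro y
    have : (f ⁻¹' {y}).Nonempty := by
      rw [← Set.ncard_pos (Set.finite_of_ncard_ne_zero (by rw [h2 y]; norm_num)), h2 y]
      norm_num
    obtain ⟨x, hx⟩ := this
    exact ⟨x, hx⟩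
  have hZorn : ∀ c ⊆ S, IsChain (· ⊆ ·) c → ∃ lb ∈ S, ∀ s ∈ c, lb ⊆ s := by
    intro c hc hchain
    rcases c.eq_empty_or_nonempty with rfl | hne
    · exact ⟨univ, ⟨isClosed_univ, univ_nonempty, by rw [preimage_univ]; exact isPreconnected_univ⟩,
        by simp⟩
    · have : Nonempty c := hne.to_subtype
      have hdir : DirectedOn (· ⊇ ·) c := by
        intro s hs t ht
        rcases hchain.total hs ht with h1 | h1
        · exact ⟨s, hs, subset_rfl, h1⟩
        · exact ⟨t, ht, h1, subset_rfl⟩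
      refine ⟨⋂₀ c, ⟨isClosed_sInter fun s hs => (hc hs).1,
        IsCompact.nonempty_sInter_of_directed_nonempty_isCompact_isClosed hdir
          (fun s hs => (hc hs).2.1) (fun s hs => (hc hs).1.isCompact) (fun s hs => (hc hs).1),
        ?_⟩, fun s hs => sInter_subset_of_mem hs⟩
      rw [isPreconnected_closed_iff]
      intro t t' ht ht' hsub hne1 hne2
      by_contra hcon
      rw [not_nonempty_iff_eq_empty] at hcon
      have hSc : IsClosed (f ⁻¹' ⋂₀ c) := (isClosed_sInter fun s hs => (hc hs).1).preimage hf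
      have hdisj : Disjoint (f ⁻¹' ⋂₀ c ∩ t) (f ⁻¹' ⋂₀ c ∩ t') := by
        rw [Set.disjoint_left]
        intro a ha ha'
        have : a ∈ f ⁻¹' ⋂₀ c ∩ (t ∩ t') := ⟨ha.1, ha.2, ha'.2⟩
        rw [hcon] at this
        exact this
      obtain ⟨u, v, hu, hv, htu, htv, huv⟩ := SeparatedNhds.of_isCompact_isCompact
        (hSc.inter ht).isCompact (hSc.inter ht').isCompact hdisj
      obtain ⟨O, hO, hOuv, hOm⟩ := tube hf (hu.union hv)
      have hcO : ∀ y ∈ ⋂ s : c, (s : Set Y), O ∈ 𝓝 y := by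
        intro y hy
        apply hO.mem_nhds
        apply hOm
        intro a ha
        have hya : f a = y := ha
        have haS : a ∈ f ⁻¹' ⋂₀ c := by
          show f a ∈ ⋂₀ c
          rw [hya, sInter_eq_iInter]
          exact hy
        rcases hsub haS with h1 | h1
        · exact Or.inl (htu ⟨haS, h1⟩)
        · exact Or.inr (htv ⟨haS, h1⟩)
      obtain ⟨⟨Z, hZ⟩, hZO⟩ := exists_subset_nhds_of_isCompact'
        (V := fun s : c => (s : Set Y)) (U := O) (by
          rintro ⟨s, hs⟩ ⟨t, ht⟩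
          obtain ⟨z, hz, h1, h2⟩ := hdir s hs t ht
          exact ⟨⟨z, hz⟩, h1, h2⟩)
        (fun s => (hc s.2).1.isCompact) (fun s => (hc s.2).1) hcO
      have hsubZ : ⋂₀ c ⊆ Z := sInter_subset_of_mem hZ
      obtain ⟨a, haS, hat⟩ := hne1
      obtain ⟨b, hbS, hbt⟩ := hne2
      obtain ⟨z, -, hzu, hzv⟩ := (hc hZ).2.2 u v hu hv
        (fun x hx => hOuv (show f x ∈ O from hZO hx))
        ⟨a, hsubZ haS, htu ⟨haS, hat⟩⟩ ⟨b, hsubZ hbS, htv ⟨hbS, hbt⟩⟩
      exact (Set.disjoint_left.1 huv) hzu hzv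
  obtain ⟨Z0, hZ0⟩ := zorn_superset S hZorn
  obtain ⟨hZ0c, hZ0n, hZ0p⟩ := hZ0.prop
  let X0 : Set X := f ⁻¹' Z0
  have hX0c : IsClosed X0 := hZ0c.preimage hf
  have i1 : CompactSpace X0 := isCompact_iff_compactSpace.1 hX0c.isCompact
  have i2 : ConnectedSpace X0 := by
    rw [← isConnected_iff_connectedSpace]
    refine ⟨?_, hZ0p⟩
    obtain ⟨y, hy⟩ := hZ0n
    obtain ⟨x, rfl⟩ := hsurj y
    exact ⟨x, hy⟩
  let p : X0 → Y := fun x => f x.1
  let i' : X0 → X0 := fun x => ⟨i x.1, by show f (i x.1) ∈ Z0; rw [hi2]; exact x.2⟩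
  have hTwo : Two p i' := by
    refine ⟨hf.comp continuous_subtype_val, ?_, ?_, ?_⟩
    · intro x hx
      exact hi1 x.1 (congrArg Subtype.val hx)
    · intro x
      exact hi2 x.1
    · intro a b hab
      rcases hi3 a.1 b.1 hab with h1 | h1
      · exact Or.inl (Subtype.ext h1)
      · exact Or.inr (Subtype.ext h1)
  refine main_contra hY hTwo ?_
  intro Z hZc hZn hZu hZp
  apply hZu
  have hmem : Z ∩ Z0 ∈ S := by
    refine ⟨hZc.inter hZ0c, ?_, ?_⟩
    · obtain ⟨x, hx⟩ := hZn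
      exact ⟨f x.1, hx, x.2⟩
    · have : f ⁻¹' (Z ∩ Z0) = Subtype.val '' (p ⁻¹' Z) := by
        ext x
        constructor
        · rintro ⟨h1, h2⟩
          exact ⟨⟨x, h2⟩, h1, rfl⟩
        · rintro ⟨x', hx', rfl⟩
          exact ⟨hx', x'.2⟩
      rw [this]
      exact hZp.image _ continuous_subtype_val.continuousOn
  have hle : Z0 ⊆ Z ∩ Z0 := hZ0.le_of_le hmem inter_subset_right
  rw [eq_univ_iff_forall]
  intro x
  exact (hle x.2).1

end H12NW
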